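import Mathlib
import Pool.Agent.W437.HR.Final
import Pool.Agent.W437.HS.Crd

/-!
# The generalized Hodge conjecture for products of abelian varieties with many independent periods

Let `A i = ℂ ^ (g i) / (ℤ ^ (g i) + Z i ℤ ^ (g i))`, `i = 0, …, n - 1`, be simple principally
polarized abelian varieties; the same variety may occur several times. Assume that the period
matrix `Z i` has many algebraically independent entries: more than `(g i - 1) ^ 2 / 8` if the
centre of the endomorphism algebra of `A i` is totally real, more than `(g i) ^ 2 / 8` if `A i` has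
no endomorphism whose square is a negative rational number, or more than `(g i) ^ 2 / 4`. (These
conditions may be replaced by: the Lie algebra generated by the conjugates and derivatives of the
complex structure contains a matrix of rank one.) Then every Hodge substructure of level at most
`k - 2 j` of the cohomology in degree `k` of the product of the `A i` is contained in the span of
the products of `j` divisor classes and a rational class of degree `k - 2 j`. For `j = 1` this
gives: if a smooth projective variety `Y` is dominated by the product and has no holomorphic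
`k`-forms, then all rational classes of degree `k` on `Y` are supported on a divisor.
-/

namespace Pool.Agent.Results.MP_1c689d_ag.IndependentPeriods

open Pool.Agent.H204R3.CM Pool.Agent.W437.HC Pool.Agent.W437.HD Pool.Agent.W437.HP
  Pool.Agent.W437.HQ Pool.Agent.W437.GH Pool.Agent.W437.HR Pool.Agent.W437.HS
  Pool.Agent.W546.GHC

/-- The rational matrix `φ` is an endomorphism (with rational coefficients) of the abelian variety
`ℂ ^ g / (ℤ ^ g + Z ℤ ^ g)`: the map `perOne Z` (it is `(a, b) ↦ a + Z b`) from the rational
homology to the tangent space carries the action of `φ` to that of a complex matrix `M`. -/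
def IsEndomorphism {g : ℕ} (Z : Matrix (Fin g) (Fin g) ℂ)
    (φ : Matrix (Fin g ⊕ Fin g) (Fin g ⊕ Fin g) ℚ) : Prop :=
  ∃ M : Matrix (Fin g) (Fin g) ℂ,
    ∀ w : Fin g ⊕ Fin g → ℚ, perOne Z (φ.mulVec w) = M.mulVec (perOne Z w)

/-- The abelian variety `ℂ ^ g / (ℤ ^ g + Z ℤ ^ g)` has an endomorphism whose square is a negative
rational number. -/
def HasImaginary {g : ℕ} (Z : Matrix (Fin g) (Fin g) ℂ) : Prop :=
  ∃ (φ : Matrix (Fin g ⊕ Fin g) (Fin g ⊕ Fin g) ℚ) (d : ℚ), 0 < d ∧ IsEndomorphism Z φ ∧
    φ * φ = -(d • (1 : Matrix (Fin g ⊕ Fin g) (Fin g ⊕ Fin g) ℚ))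

/-- All endomorphisms which commute with all endomorphisms are symmetric for the principal
polarization, whose matrix is `Om g ℚ = [[0, 1], [-1, 0]]`. For a simple abelian variety this means
that the centre of the endomorphism algebra is a totally real field (types I, II, III). -/
def HasRealCentre {g : ℕ} (Z : Matrix (Fin g) (Fin g) ℂ) : Prop :=
  ∀ φ : Matrix (Fin g ⊕ Fin g) (Fin g ⊕ Fin g) ℚ, IsEndomorphism Z φ →
    (∀ ψ, IsEndomorphism Z ψ → φ * ψ = ψ * φ) → φ.transpose * Om g ℚ = Om g ℚ * φ

/-- For some number `t` at least `t` entries of the period matrix are algebraically independent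
and `t > g ^ 2 / 4`; or `t > g ^ 2 / 8` and there is no endomorphism whose square is a negative
rational number; or `t > (g - 1) ^ 2 / 8` and all central endomorphisms are symmetric. -/
def ManyPeriods {g : ℕ} (Z : Matrix (Fin g) (Fin g) ℂ) : Prop :=
  ∃ s : Finset (Fin g × Fin g), AlgebraicIndependent ℚ (fun p : s => Z p.1.1 p.1.2) ∧
    (g ^ 2 < 4 * s.card ∨ g ^ 2 < 8 * s.card ∧ ¬ HasImaginary Z ∨
      g ^ 2 + 1 < 8 * s.card + 2 * g ∧ HasRealCentre Z)

/-- The complex Lie algebra generated by the images of the matrix `D = -i J` (`J` is the matrix of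
the complex structure on the homology) under all `ℚ`-linear maps from the complex numbers to the
complex numbers (for instance all conjugates and all derivatives of `D`) contains a matrix `X` of
rank one: `X` is in every complex space of matrices which contains these images and is closed under
commutators. -/
def HasRankOne {g : ℕ} (Z : Matrix (Fin g) (Fin g) ℂ) : Prop :=
  ∃ X : Matrix (Fin g ⊕ Fin g) (Fin g ⊕ Fin g) ℂ, X.rank = 1 ∧
    ∀ L : Submodule ℂ (Matrix (Fin g ⊕ Fin g) (Fin g ⊕ Fin g) ℂ),
      (∀ f : ℂ →ₗ[ℚ] ℂ, (DZ Z).map f ∈ L) → (∀ A ∈ L, ∀ B ∈ L, A * B - B * A ∈ L) → X ∈ L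

/-- Let `A 0, …, A (n - 1)` be simple principally polarized abelian varieties, with period
matrices `Z i`, and assume that each of them has many algebraically independent periods
(`ManyPeriods`) or a matrix of rank one in its Lie algebra (`HasRankOne`). Then for all `k` and `j`
every Hodge substructure of level at most `k - 2 j` of the rational cohomology in degree `k` of the
product of the `A i` lies in the span of the products of `j` Hodge classes of degree two with
rational classes of degree `k - 2 j`. -/
theorem result {n : ℕ} (g : Fin n → ℕ) (Z : ∀ i, Matrix (Fin (g i)) (Fin (g i)) ℂ)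
    (hsymm : ∀ i, (Z i).transpose = Z i) (hpos : ∀ i, ((Z i).map Complex.im).PosDef)
    (hsimple : ∀ i, IsSimpleAV (Z i)) (h : ∀ i, ManyPeriods (Z i) ∨ HasRankOne (Z i)) (k j : ℕ) :
    DivisorialConiveau (perProd Z) k j := by
  refine coniveau_prod_pcs Z hsymm hpos (fun i => ?_) k j
  have hY : IsUnit (imM (Z i)).det := (hpos i).isUnit.map Matrix.detMonoidHom
  have htop : UU (DZ (Z i)) (Om (g i) ℂ) = ⊤ → HasPcs (DZ (Z i)) :=
    hasPcs_of_top (Om_transpose ℂ) (Om_unit ℂ) (sp_C (hsymm i))
  rcases h i with ⟨s, hs, hcard | ⟨hcard, hno⟩ | ⟨hcard, hre⟩⟩ | ⟨X, hr, hX⟩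
  · refine htop (UU_eq_top (hsymm i) hY (hsimple i) (good_of_dim (hsymm i) (hpos i) ?_))
    have h1 := card_le_finrank (hsymm i) hY s hs
    omega
  · refine htop (UU_top8 (hsymm i) (hpos i) (hsimple i) ?_ ?_)
    · have h1 := card_le_finrank_WA (hsymm i) (hpos i) s hs
      omega
    · rintro ⟨φ, M, d, hd, hM, hφ⟩
      exact hno ⟨φ, d, hd, ⟨M, hM⟩, hφ⟩
  · refine hasPcs_of_real (hsymm i) (hpos i) (hsimple i) ?_ ?_
    · have h1 := card_le_finrank_WA (hsymm i) (hpos i) s hs
      omega
    · intro φ M hM hc
      exact hre φ ⟨M, hM⟩ fun ψ ⟨N, hN⟩ => hc ψ N hN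
  · refine htop (UU_eq_top (hsymm i) hY (hsimple i)
      (good_of_rk (hsymm i) (hpos i) (hX _ (fun f => map_mem_C (D_mem _) f) ?_) hr))
    intro A hA B hB
    exact lieM_bracket (D := DZ (Z i)) (K := ℂ) hA hB

end Pool.Agent.Results.MP_1c689d_ag.IndependentPeriods
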