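import Pool.Agent.W547.GHX.Final

/-!
# The coniveau of the cohomology of products of surfaces and abelian varieties

Let `S_0, ..., S_(r-1)` be smooth projective complex surfaces with `b_1 = 0` and let
`T = ⊕ T_i`, `T_i` the transcendental part of `H^2(S_i)(1)`: a polarised rational Hodge structure
with Hodge numbers `(p_i, q_i, p_i)`, `p_i` the geometric genus (structure `HS n`: the rational
form `Q` and the Hodge operator `x`; `c` says to which surface a basis vector belongs).  Assume
(`HS.Big`) that the only Hodge endomorphisms of `T` are the rational scalars on the `T_i` and that
for all `i` we have `p_i ≥ 2` and `2 p_i^2 (p_i^2 + 1) < (q_i - 2 p_i) (q_i + p_i)`.  Let `A` be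
any complex abelian variety, given by `H^1(A)` (structure `HW w`: the Riemann form `E` and the
Hodge operator `y`, equal to `1/2` and `-1/2` on the two pieces).

The cohomology of `S_i` is spanned by algebraic classes (`Fin s`; `d` says to which surface such a
class belongs and `cd` is its codimension) and `T_i`.  An element of
`H^(2k)(S_(a 1) × ... × S_(a m)) ⊗ H^l(A)` is a rational form with `m` variables in the total
cohomology of the surfaces and `l` variables in `H^1(A)`, alternating in the latter (`OkH.deg`,
`halt`).  The map `f` divides the factors into blocks of equal surfaces; the classes on the product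
of the symmetric powers `Sym^N(S_i)`, one for each block with `N` elements, are the classes which
are symmetric under the permutations of the factors in each block (`OkH.sym`).  If `f` is injective
we have the product of the surfaces itself.

Let `H` be a Hodge substructure of `H^(2k)(X) ⊗ H^l(A)`, `X` the product of symmetric powers: a
rational subspace whose complex span `cspX H` is stable under the Hodge operator (`OkH.sub`).  Assume
that in the Kuenneth components of its elements the part `T_i` occurs in at most `p_i` of the
symmetric powers (this always holds if at most `p_i` of the factors of `X` are symmetric powers of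
`S_i`) and that `H` has Hodge coniveau at least `j`: the Hodge operator has no eigenvalue `e / 2`
with `|e| > 2k + l - 2j` on `cspX H`, that is, only types `(p', q')` with `p', q' ≥ j` occur
(`OkH.lev`).

We prove that `H` is contained in `conivX T W c d cd a l j`, the span of the products `α β`, where
for some `j₁ + j₂ = j` the class `α` is a sum of products of algebraic classes on some factors,
transcendental parts of diagonals (of codimension two) on pairs of equal factors and arbitrary
classes on the remaining factors of total codimension at least `j₁` in the algebraic part
(`HS.coniv2`), so that `α` vanishes outside a closed subset of codimension `j₁`, and `β` lies in a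
Hodge substructure of `H^l(A)` of Hodge coniveau at least `j₂` (`IsLev`).

So the generalized Hodge conjecture for `X × A` follows from that for `A`, for all `A`.  For
`j = 1` this is the posed question: if `Y` is a variety dominated by `X × A` and
`h^(i,0)(Y) = 0`, then the classes in `H^i(Y)` vanish on a dense open subset, as soon as the Hodge
substructures `B` of `H^l(A)`, `l ≤ i`, with `B^(l,0) = 0` have this property.
-/

open Matrix Finset Module

namespace Pool.Agent.Results.MP_1c689d_ag.SurfacesTimesAbelian

open Pool.Agent.W544.PG Pool.Agent.W547.GHX

/-- The coniveau of Hodge substructures of the cohomology of products of symmetric powers of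
surfaces and an abelian variety. -/
theorem result {n r w s m l b : ℕ} (T : HS n) (c : Fin n → Fin r) (p q : Fin r → ℕ)
    (hT : T.Big c p q) (hp : ∀ i, 2 ≤ p i) (W : HW w) (d : Fin s → Fin r) (cd : Fin s → ℕ)
    (a : Fin m → Fin r) (f : Fin m → Fin b) (hf : ∀ i i', f i = f i' → a i = a i') (k j : ℕ)
    (H : Submodule ℚ ((Fin m → Fin s ⊕ Fin n) → (Fin l → Fin w) → ℚ))
    (hH : OkH T W c d cd a f p k j H) (halt : ∀ t ∈ H, ∀ J, IsAlt (t J)) :
    H ≤ conivX T W c d cd a l j :=
  ghcXF hT hp W d cd a f hf k j H hH halt

end Pool.Agent.Results.MP_1c689d_ag.SurfacesTimesAbelian
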